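import Pool.Agent.H53.GS.EMB

/-!
# No equivalent norm on `ℓ_p` is `k` times Gateaux smooth, `k > p`, `p` not an even integer

For `p = 3`, `k = 4` and `p = 5/2`, `k = 3` (and `X = ℓ_p`, `T` the identity) this is the negative answer to
both questions of Troyanski.

Sketch. Suppose that the equivalent norm `N` on `ℓ_p` is `k` times Gateaux smooth, `k > p`.
(1) A greedy chain argument gives points `x` of growth: `N (x + u) ≥ N x + ε ‖u‖ ^ p` up to an error tending to
`0` for `u` in the directions at infinity of a block sequence; near every point of growth there are other ones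
`x + V`, `V ≠ 0` arbitrarily small and arbitrarily far out, where the block sequence can be refined so that the
Taylor polynomial of degree `k - 1` of `N` at `x` tends to `0` at infinity (for forms of degree `< p` this is
automatic; for `p` an odd integer differences of blocks kill the form of degree `p`).
(2) For every `x`, by the Baire category theorem for the directions, the Taylor expansion with remainder
`O (t ^ k)` is uniform in a cone around a generic direction; a direction `h₀` can be chosen which is generic for a
countable set `Q` of points of growth, closed under the construction of (1). By the Baire category theorem in the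
closure of `Q` the `k`-th differences of `N` in direction `h₀` are `O (ρ ^ k)` uniformly in a relatively open
subset. Both together give `|N (x + V) - N x - P_x V| ≤ C ‖V‖ ^ k` for the points `x, x + V` of (1), which
contradicts the growth.
-/

set_option autoImplicit false

open scoped ENNReal

namespace Pool.Agent.Results.MP_290f58_an.NoGateauxSmoothNorm

/-- Let `p ∈ [1, ∞)` not be an even integer, let `k > p` be an integer, and let `X` be a real normed
space which contains an isomorphic copy of `ℓ_p` (for instance `X = ℓ_p`). Then no equivalent norm on `X`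
is `k` times Gateaux differentiable on `X ∖ {0}`. -/
theorem result (p : ℝ≥0∞) [Fact (1 ≤ p)] (hp : p ≠ ⊤) (hpar : ∀ m : ℕ, p ≠ 2 * m) (k : ℕ)
    (hk : p < k) {X : Type*} [NormedAddCommGroup X] [NormedSpace ℝ X]
    (T : lp (fun _ : ℕ => ℝ) p →L[ℝ] X) (c : ℝ) (hc : 0 < c) (hT : ∀ x, c * ‖x‖ ≤ ‖T x‖)
    (N : Seminorm ℝ X) (hN : GS.EquivNorm N) : ¬ GS.GateauxDiff k N {0}ᶜ :=
  GS.emb_main p hp hpar k hk T c hc hT N hN

/-- Q1: `ℓ_3` has no equivalent four times Gateaux smooth norm. -/
theorem q1 [Fact ((1 : ℝ≥0∞) ≤ 3)] (N : Seminorm ℝ (lp (fun _ : ℕ => ℝ) 3))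
    (hN : GS.EquivNorm N) : ¬ GS.GateauxDiff 4 N {0}ᶜ := by
  refine result 3 (by norm_num) ?_ 4 (by norm_num) (ContinuousLinearMap.id ℝ _) 1 one_pos
    (fun x => by simp) N hN
  intro m hm
  have h1 : ((3 : ℕ) : ℝ≥0∞) = ((2 * m : ℕ) : ℝ≥0∞) := by
    push_cast
    exact hm
  have h2 : 3 = 2 * m := by exact_mod_cast h1
  omega

/-- Q2: `ℓ_{5/2}` has no equivalent three times Gateaux smooth norm. -/
theorem q2 [Fact ((1 : ℝ≥0∞) ≤ 5 / 2)] (N : Seminorm ℝ (lp (fun _ : ℕ => ℝ) (5 / 2)))
    (hN : GS.EquivNorm N) : ¬ GS.GateauxDiff 3 N {0}ᶜ := by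
  refine result (5 / 2) (ENNReal.div_ne_top (by norm_num) (by norm_num)) ?_ 3 ?_
    (ContinuousLinearMap.id ℝ _) 1 one_pos (fun x => by simp) N hN
  · intro m hm
    have h0 : (5 : ℝ≥0∞) = 2 * m * 2 := by
      rw [← hm, ENNReal.div_mul_cancel (by norm_num) (by norm_num)]
    have h1 : ((5 : ℕ) : ℝ≥0∞) = ((2 * m * 2 : ℕ) : ℝ≥0∞) := by
      push_cast
      exact h0
    have h2 : 5 = 2 * m * 2 := by exact_mod_cast h1
    omega
  · rw [ENNReal.div_lt_iff (Or.inl (by norm_num)) (Or.inl (by norm_num))]
    norm_num

end Pool.Agent.Results.MP_290f58_an.NoGateauxSmoothNorm
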